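import Pool.Agent.Helper49.RU.Defs

/-!
Project RU (MP_a60174_an, Q1, real scalars): statements of the modules, with complete paper proofs.

THEOREM.  Assume p = c.  There is ONE nonprincipal ultrafilter U on the natural numbers such that
for every 1 < p < oo the algebra A_(p,U) over the REAL scalars is not reflexive.

IDEA.  H is a complex Hilbert space.  Suppose unit vectors z_n in H satisfy, along U,
(1) tst M (z_n) -> 0 for each bounded REAL-linear M on H (the antilinear part of M is invisible),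
(2) for every bounded sequence w_n and ε > 0 a bounded T on H has norm of
T w_n - <z_n,w_n> z_n at most ε for U-many n.
Embed H (as a real space) as a complemented subspace of X = L^p, by i and q, q i = 1.  The real
rank one operator S(x) = (lim Re <z_n, q x_n>) (i z_n)_U leaves invariant every closed subspace
that is invariant under all T^U (use (2) and complex multiples), but the WOT-continuous functional
R ↦ lim (Re <z, q R i z> - Re <iz, q R i (iz)>) vanishes on all T^U by (1) and is 1 at S.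
The vectors: z = zeta ⟨k,g⟩ = tensor product of k phase vectors (1, ω^a, ω^b)/sqrt 3.  The
ultrafilter is generic over finite sets of parameters g that have density at least
2^(-|S|/(L+1)) in a subcube with set of free coordinates S; it is built by a recursion of length c.
-/

namespace Pool.Agent.Helper49.RU

open MeasureTheory Filter Topology Complex
open scoped ENNReal Cardinal ComplexConjugate

/-- AVG (averages over disjoint sets of coordinates; 120 lines).
Proof.  Let n = card J, and A_T = av T, an operator on functions with kernel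
K_T(s,t) = 3^-(n - |T|) [t = s on T], real and symmetric.  So A_T is self-adjoint for the inner
product sum_s conj(v s) w s.  Kernel product: K_T K_T' (s,r) = 3^(-2n+|T|+|T'|) * number of t with
t = s on T and t = r on T'; this number is 3^(n - |T ∪ T'|) if s = r on T ∩ T' and 0 otherwise.
Only needed: (a) T = T': A_T A_T = A_T (direct: A_T v depends only on the restriction to T, and
averaging a function that is constant on the classes gives it back); (b) T and T' disjoint: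
A_T A_T' = A_∅ (the number of t with t = s on T and t = r on T' is 3^(n-|T|-|T'|)); T' = ∅ is a
special case, and A_∅ A_T = A_∅.  Put D_a = A_(S a) - A_∅.  Then D_a is self-adjoint,
D_a D_a = A_(S a) - A_∅ - A_∅ + A_∅ = D_a, and D_a D_b = A_∅ - A_∅ - A_∅ + A_∅ = 0 for a ≠ b.
Let E = sum_a ‖D_a v‖^2 (ℓ² norms) and W = sum_a D_a v.  Then <v,W> = sum_a <v, D_a v> =
sum_a <D_a v, D_a v> = E and ‖W‖^2 = sum_(a,b) <D_a v, D_b v> = E.  Cauchy-Schwarz:
E ≤ ‖v‖ sqrt E, so E ≤ ‖v‖^2. -/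
def StAVG : Prop :=
  ∀ (J : Type) [Fintype J] [DecidableEq J] (v : (J → Fin 3) → ℂ) (m : ℕ)
    (S : Fin m → Finset J), (∀ a b, a ≠ b → Disjoint (S a) (S b)) →
    ∑ a, ∑ s, ‖av (S a) v s - av ∅ v s‖ ^ 2 ≤ ∑ s, ‖v s‖ ^ 2

/-- TWI (twisted averages; 150 lines).
Proof.  |chi0| = 1 (a power of om, |om| = 1), so |chi s g| = 1, and nf is real with
nf^2 = 3^(-card J).
(a) ‖zz g‖^2 = sum_s |nf|^2 |chi|^2 = 3^k 3^-k = 1.
(b) pp T g w s = sum over t with t = s on T of 3^-(k-|T|) chi s g conj(chi t g) w t.  In the product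
over j the factors with j in T are chi0 (s j) (g j) conj(chi0 (s j) (g j)) = 1, the factors with j
outside T only involve g j = q j.  Hence the value is the same for q.
(c) pp ∅ g w s = chi s g 3^-k sum_t conj(chi t g) w t; and inner (zz g) w =
nf sum_t conj(chi t g) w t, multiplied by nf chi s g; nf^2 = 3^-k.
(d) coordinates of the difference: chi s g * (av T v s - av ∅ v s) with v t = conj(chi t g) w t
(by (c) and the definition), and |chi| = 1; use EuclideanSpace.norm_sq_eq.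
(e) |chi| = 1.
(f) P is linear in w; ‖P w‖^2 = sum_s |av T v s|^2 ≤ sum_s |v s|^2 = ‖w‖^2: by Cauchy-Schwarz (or
convexity) |av T v s|^2 ≤ 3^-(k-|T|) sum over t = s on T of |v t|^2, and each t is counted for
3^(k-|T|) values of s.  LinearMap.mkContinuous with constant 1. -/
def StTWI : Prop :=
  (∀ (k : ℕ) (g : Fin k → Q), ‖(zz g : V k)‖ = 1) ∧
  ∀ (k : ℕ) (T : Finset (Fin k)) (g : Fin k → Q),
    (∀ q : Fin k → Q, (∀ j, j ∉ T → g j = q j) → ∀ w : V k, pp T g w = pp T q w) ∧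
    (∀ w : V k, pp ∅ g w = pz (zz g) w) ∧
    (∀ w : V k, ‖pp T g w - pz (zz g) w‖ ^ 2 =
      ∑ s, ‖av T (fun t => conj (chi t g) * w t) s - av ∅ (fun t => conj (chi t g) * w t) s‖ ^ 2) ∧
    (∀ w : V k, ∑ s, ‖conj (chi s g) * w s‖ ^ 2 = ‖w‖ ^ 2) ∧
    ∃ P : V k →L[ℂ] V k, ‖P‖ ≤ 1 ∧ ∀ w, P w = pp T g w

/-- SEC (a big section; 60 lines).
Proof.  Map g in Z to its restriction to S \ T (a function {j // j ∈ S \ T} → Q).  There are at
most 9^(|S|-|T|) values, so some fibre Z' over the value of some q' in Z has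
|Z| ≤ |Z'| 9^(|S|-|T|) (Finset.exists_lt_card_fiberwise_of_mul_lt_card_of_maps_to or the sum over
the fibres and the maximal one).  The fibre is contained in the filter of the statement: outside S
both g and q' are equal to q. -/
def StSEC : Prop :=
  ∀ (k : ℕ) (S T : Finset (Fin k)) (q : Fin k → Q) (Z : Finset (Fin k → Q)), T ⊆ S → Z.Nonempty →
    (∀ g ∈ Z, ∀ j, j ∉ S → g j = q j) →
    ∃ q' ∈ Z, Z.card ≤ (Z.filter (fun g => ∀ j, j ∉ T → g j = q' j)).card * 9 ^ (S.card - T.card)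

/-- HLF (arithmetic of Big; 80 lines).
Proof.  Let S, q be as in Big, s = |S|.
(a) s/(L+1) ≤ s/(j+1) and j ≤ L ≤ s.
(b) 9^s > 0, so the right side is positive and |Z| > 0.
(c) same S, q for Y.  9^s ≤ |Z| 2^(s/(4(j+1)+1)) ≤ 2 |Y| 2^(s/(4(j+1)+1)) =
|Y| 2^(s/(4(j+1)+1) + 1), and s/(4(j+1)+1) + 1 ≤ s/(j+1) because s ≥ 4(j+1):
s/(j+1) - s/(4(j+1)) = 3s/(4(j+1)) ≥ 3 ≥ 1. -/
def StHLF : Prop :=
  (∀ (j L k : ℕ) (Z : Finset (Fin k → Q)), j ≤ L → Big L Z → Big j Z) ∧
  (∀ (j k : ℕ) (Z : Finset (Fin k → Q)), Big j Z → Z.Nonempty) ∧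
  (∀ (j k : ℕ) (Z Y : Finset (Fin k → Q)), Big (4 * (j + 1)) Z → Y ⊆ Z →
    Z.card ≤ 2 * Y.card → Big j Y)

/-- FIN (the finite lemma: a big part of Z and a projection that isolates the phase vectors from
arbitrary companions; hypotheses AVG, TWI, SEC; 200 lines).
Proof.  Let m = ⌈2/ε²⌉₊ + 1 (so m ≥ 1, m ε² ≥ 2) and L = 4 m (j+1).  Let Big L Z with S, q;
s = |S| ≥ L, s' = s / m (division of natural numbers).  Choose pairwise disjoint T_a ⊆ S, a in
Fin m, with |T_a| = s' (possible since m s' ≤ s; e.g. by an enumeration of S).  Call a bad for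
g in Z if ‖pp T_a g (w g) - pz (zz g) (w g)‖ > ε.  By TWI (d), (e) and AVG (J = Fin k,
v t = conj(chi t g) w g t): sum_a ‖pp T_a g (w g) - pz (zz g) (w g)‖² ≤ ‖w g‖² ≤ 1, so
(number of bad a) ε² ≤ 1, i.e. 2 (number of bad a) ≤ m.  Double counting: some a is bad for at
most |Z|/2 elements g of Z.  Let Y = the g in Z for which this a is not bad, T = T_a:
|Z| ≤ 2|Y|, Y nonempty (Z is nonempty as 9^s > 0).  By SEC (S, T, q, Y) there is q' in Y with
Z' = {g in Y : g = q' outside T}, |Y| ≤ |Z'| 9^(s-s').  Then Big j Z' with T, q':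
9^s ≤ |Z| 2^(s/(L+1)) ≤ 2 |Z'| 9^(s-s') 2^(s/(L+1)), so 9^s' ≤ |Z'| 2^(s/(L+1)+1), and
s/(L+1) + 1 ≤ s'/(j+1): as s < m (s'+1), s' ≥ s/m - 1, hence
s'/(j+1) ≥ s/(m(j+1)) - 1, while s/(L+1) ≤ s/(4m(j+1)); the difference
s/(m(j+1)) - s/(4m(j+1)) = 3s/(4m(j+1)) ≥ 3 ≥ 2 (s ≥ L).  j ≤ s': s' ≥ s/m - 1 ≥ 4(j+1) - 1.
P = the operator of TWI (f) for T, q'; for g in Z' we have P (w g) = pp T q' (w g) =
pp T g (w g) by TWI (b), and a is not bad for g. -/
def StFIN : Prop :=
  ∀ (j : ℕ) (ε : ℝ), 0 < ε → ∃ L : ℕ, ∀ (k : ℕ) (Z : Finset (Fin k → Q)), Big L Z →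
    ∀ w : (Fin k → Q) → V k, (∀ g, ‖w g‖ ≤ 1) →
      ∃ Y ⊆ Z, Big j Y ∧ ∃ P : V k →L[ℂ] V k, ‖P‖ ≤ 1 ∧
        ∀ g ∈ Y, ‖P (w g) - pz (zz g) (w g)‖ ≤ ε

/-- CHR (characters; 80 lines).
Proof.  om^3 = 1, 1 + om + om^2 = 0, |om| = 1, conj om = om^2.  The exponents of chi0 0, chi0 1,
chi0 2 are the linear forms 0, x.1, x.2 on ZMod 3 × ZMod 3.  conj chi0 a * conj chi0 b * chi0 c *
chi0 d is om^(l(x)) with l = -u_a - u_b + u_c + u_d, u_0 = (0,0), u_1 = (1,0), u_2 = (0,1), and the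
sum over the nine x is 9 if l = 0 and 0 otherwise.  The six sums u_a + u_b (a ≤ b) are
(0,0), (1,0), (0,1), (2,0), (1,1), (0,2): different, so l = 0 iff {a,b} = {c,d} as multisets.
(Check the 81 cases, or use AddChar sums.) -/
def StCHR : Prop :=
  (∀ (a : Fin 3) (x : Q), ‖chi0 a x‖ = 1) ∧ ∀ a b c d : Fin 3,
    ∑ x : Q, conj (chi0 a x) * conj (chi0 b x) * chi0 c x * chi0 d x =
      if (a = c ∧ b = d) ∨ (a = d ∧ b = c) then 9 else 0

/-- QUA (second moment of antilinear forms at phase vectors; hypothesis CHR; 200 lines).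
Proof.  Let n = card J, c_s(g) = nf chi s g, z_g = sum_s c_s(g) u_s, b s t = inner (u s) (B (u t)).
B z_g = sum_t conj(c_t) B(u_t), so inner z_g (B z_g) = sum_(s,t) conj(c_s) conj(c_t) b s t.
Bessel: sum_s |b s t|^2 ≤ ‖B (u t)‖^2 ≤ R^2 (u orthonormal, R ≥ 0 may be assumed or R^2 directly:
‖B(u t)‖ ≤ R), so sum_(s,t) |b s t|^2 ≤ 3^n R^2.
sum_g |inner z_g (B z_g)|^2 = nf^4 sum over (s,t), (s',t') of b s t conj(b s' t') *
sum_g conj(chi s g) conj(chi t g) chi s' g chi t' g.  The inner sum is a product over j of the sums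
of CHR, so it is 9^n if for each j (s_j = s'_j, t_j = t'_j) or (s_j = t'_j, t_j = s'_j) [write
(s,t) ~ (s',t'), a symmetric relation], and 0 otherwise; nf^4 = 9^-n.  So the sum is
sum over (s,t) ~ (s',t') of b s t conj(b s' t'), at most
sum over (s,t) ~ (s',t') of (|b s t|^2 + |b s' t'|^2)/2 =
sum over (s,t) of |b s t|^2 * #{(s',t') ~ (s,t)} ≤ 2^n 3^n R^2 (for every j at most two choices of
the pair (s'_j, t'_j)). -/
def StQUA : Prop :=
  ∀ (J : Type) [Fintype J] [DecidableEq J] (E : Type) [NormedAddCommGroup E]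
    [InnerProductSpace ℂ E] (u : (J → Fin 3) → E) (B : E → E) (R : ℝ),
    Orthonormal ℂ u → IsAnti B → (∀ v, ‖B v‖ ≤ R * ‖v‖) →
    ∑ g : J → Q, ‖(inner ℂ (∑ s, (nf J * chi s g) • u s)
      (B (∑ s, (nf J * chi s g) • u s)) : ℂ)‖ ^ 2 ≤ 6 ^ (Fintype.card J) * R ^ 2

/-- CUB (phase vectors on a subcube; 120 lines).
Proof.  For σ : S → Fin 3 let u_σ be the vector with t-th coordinate
3^(-(k-|S|)/2) * prod over j outside S of chi0 (t j) (q j) if t j = σ j for all j in S, and 0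
otherwise.  For σ ≠ σ' the supports are disjoint, and ‖u_σ‖² = 3^-(k-|S|) * #{t : t = σ on S} = 1
(there are 3^(k-|S|) such t).  For g equal to q outside S the t-th coordinate of zz g is
3^(-k/2) prod_(j in S) chi0 (t j) (g j) prod_(j not in S) chi0 (t j) (q j), which is
nf S * chi (t restricted to S) (g restricted to S) * (t-th coordinate of u_(t restricted to S)),
and the other u_σ vanish at t. -/
def StCUB : Prop :=
  ∀ (k : ℕ) (S : Finset (Fin k)) (q : Fin k → Q), ∃ u : ({x // x ∈ S} → Fin 3) → V k,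
    Orthonormal ℂ u ∧ ∀ g : Fin k → Q, (∀ j, j ∉ S → g j = q j) →
      (zz g : V k) = ∑ s : {x // x ∈ S} → Fin 3,
        (nf {x // x ∈ S} * chi s (fun j : {x // x ∈ S} => g j)) • u s

/-- ANT (antilinear parts vanish at most phase vectors; hypotheses HLF, QUA, CUB; 200 lines).
Proof.  Choose L ≥ 4(j+1), L ≥ 3 with (5/4)^L ≥ 8 R²/ε².  Let Big L Z with S, q, s = |S|, and let
‖M‖ ≤ R.  Put B v = (1/2)(M v + i M(i v)).  B is additive, real-homogeneous, and
B(i v) = (1/2)(M(iv) - i M v) = -i B v, so IsAnti B; ‖B v‖ ≤ R ‖v‖.  Put A = M - B; then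
A(iv) = i A v.  <iz, M(iz)> = <iz, iAz> - <iz, iBz> = <z,Az> - <z,Bz>, so
tst M z = 2 Re <z, B z> and |tst M z| ≤ 2 |<z, B z>|.
The g that are equal to q outside S correspond to {x // x ∈ S} → Q, and by CUB and QUA
(E = V k) the sum over them of |<zz g, B (zz g)>|² is at most 6^s R².  So at most
4 * 6^s R²/ε² of them have |tst M (zz g)| > ε.  Let Y = Z.filter (|tst M (zz g)| ≤ ε).
|Z| ≥ 9^s 2^(-s/(L+1)) ≥ 9^s 2^(-s/4) ≥ (15/2)^s  (2^(1/4) ≤ 6/5), and
(15/2)^s = 6^s (5/4)^s ≥ 6^s * 8 R²/ε², hence |Z \ Y| ≤ |Z|/2 and |Z| ≤ 2|Y|.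
Conclude with HLF (Big (4(j+1)) Z by (a), then (c)). -/
def StANT : Prop :=
  ∀ (j : ℕ) (R ε : ℝ), 0 < ε → ∃ L : ℕ, ∀ (k : ℕ) (Z : Finset (Fin k → Q)), Big L Z →
    ∀ M : V k →L[ℝ] V k, ‖M‖ ≤ R → ∃ Y ⊆ Z, Big j Y ∧ ∀ g ∈ Y, |tst (⇑M) (zz g)| ≤ ε

/-- REC (transfinite recursion; 80 lines).
Proof.  Well-founded recursion (IsWellFounded.fix or WellFounded.fix for r): g i := if the family
h = (g j)_(r j i) is decreasing in the sense of the hypothesis then the chosen p, else any element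
(if ι is nonempty P is nonempty: apply the hypothesis to ... the minimal element; or put the
recursion in Option P / use Classical.epsilon with the hypothesis giving Nonempty P).
By well-founded induction on i: for all j with r j i, the statement holds at j (g j in D j and
le (g j) (g a) for r a j), hence the family below i is decreasing: for a, b below i with r a b we
have le (g b) (g a) by the statement at b.  So g i is the chosen element. -/
def StREC : Prop :=
  ∀ (ι P : Type) (r : ι → ι → Prop) [IsWellOrder ι r] (le : P → P → Prop) (D : ι → Set P),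
    (∀ (i : ι) (h : {j // r j i} → P),
      (∀ a b : {j // r j i}, r a b → le (h b) (h a)) → ∃ p ∈ D i, ∀ a, le p (h a)) →
    ∃ g : ι → P, (∀ i, g i ∈ D i) ∧ ∀ i j, r j i → le (g i) (g j)

/-- LBD (lower bounds of short chains; 200 lines).
Proof.  If ι is empty take W = all of Code (rich: for j take k = j and Z = all functions,
Big j with S = univ, 9^k ≤ 9^k 2^...; DownC trivial).  In general: Code is countable and
infinite; fix an injection e : Code → ℕ (or an equivalence).  Let Y_j = {c : j ≤ c.1, Big j c.2}.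
F = {e '' X_i} ∪ {e '' Y_j : j}; #F < c since #ι < c and #ℕ < c (sum of two cardinals below an
infinite one).  Finite intersections are infinite: given finitely many X_i, by the comparability
(AL) one of them, X_a, is almost contained in all the others (finite total preorder: AL is
transitive: X ∩ Y_j ⊆ Y, Y ∩ Y_j' ⊆ Z gives X ∩ Y_max ⊆ Z, as Y_j decreases in j — Big is
monotone, StHLF (a), reprove it: it is immediate), so for all large j the set X_a ∩ Y_j is
contained in the intersection, and X_a ∩ Y_j is nonempty for every j, with c.1 ≥ j; hence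
infinite.  PEqC gives an infinite P ⊆ ℕ; replace P by P ∩ range e (e '' Y_0 contains almost all of
it) and let W0 = e⁻¹(P): infinite, W0 \ X_i finite, W0 \ Y_j finite.
W = {⟨k,Z'⟩ : exists Z ⊇ Z' with ⟨k,Z⟩ in W0}.  DownC W: clear.  Rich W: W0 ∩ Y_j is nonempty.
AL W (X_i): let j exceed all c.1 for c in the finite set W0 \ X_i.  If ⟨k,Z'⟩ in W, j ≤ k, then the
corresponding ⟨k,Z⟩ in W0 has k ≥ j, so it lies in X_i, and ⟨k,Z'⟩ in X_i by DownC. -/
def StLBD : Prop :=
  PEqC → ∀ (ι : Type) (X : ι → Set Code), #ι < 𝔠 → (∀ i, Cond (X i)) →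
    (∀ i j, AL (X i) (X j) ∨ AL (X j) (X i)) → ∃ W : Set Code, Cond W ∧ ∀ i, AL W (X i)

/-- TSA (deciding a set of indices; hypothesis HLF; 80 lines).
Proof.  Y1 = {c in X : all g in c.2 have ⟨c.1,g⟩ in B}, Y2 = {c in X : all g in c.2 have
⟨c.1,g⟩ not in B}.  Both are DownC.  If Y1 is rich we are done.  Otherwise some j0 has no k ≥ j0,
Z with ⟨k,Z⟩ in Y1 and Big j0 Z.  Then Y2 is rich: given j let m = max j j0; X is rich, so there
are k ≥ 4(m+1) ≥ m and ⟨k,Z⟩ in X with Big (4(m+1)) Z.  One of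
Z ∩ B, Z \ B has at least half of the elements, so it is Big m by HLF (c), and it is in X by DownC;
if it were Z ∩ B it would be Big j0 and contradict the choice of j0.  So Z \ B is Big m, hence
Big j, and belongs to Y2. -/
def StTSA : Prop :=
  ∀ (X : Set Code), Cond X → ∀ B : Set Idx, ∃ Y ⊆ X, Cond Y ∧
    ((∀ c ∈ Y, ∀ g ∈ c.2, (⟨c.1, g⟩ : Idx) ∈ B) ∨ (∀ c ∈ Y, ∀ g ∈ c.2, (⟨c.1, g⟩ : Idx) ∉ B))

/-- TSB (antilinear parts; hypotheses HLF, ANT; 100 lines).
Proof.  Y = {c in X : |tst M (zeta ⟨c.1,g⟩)| ≤ ε for all g in c.2}.  DownC: clear.  Rich: given j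
take L from ANT (j, ‖M‖, ε), and from the richness of X at max j L some k ≥ j and ⟨k,Z⟩ in X with
Big L Z.  Let M_k = (evaluation at k) ∘ M ∘ (lp.single 2 k), a real-linear operator on V k of norm
≤ ‖M‖.  For z in V k: inner (lp.single 2 k z) h = inner z (h k) (lp.inner_single_left), so
tst M (lp.single 2 k z) = tst M_k z (lp.single is complex-linear).  ANT gives the subset of Z,
which is in X by DownC. -/
def StTSB : Prop :=
  ∀ (X : Set Code), Cond X → ∀ (M : H →L[ℝ] H) (ε : ℝ), 0 < ε → ∃ Y ⊆ X, Cond Y ∧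
    ∀ c ∈ Y, ∀ g ∈ c.2, |tst (⇑M) (zeta ⟨c.1, g⟩)| ≤ ε

/-- SUP (no mass in a new finite set of blocks; hypotheses HLF, TSA; 120 lines).
Proof.  For a finite set F of blocks put m_F(i) = sum_(a in F) ‖w i a‖^2 ≤ ‖w i‖^2 ≤ 1.  Let
A = {s : there are a finite F and Y ⊆ X with Cond Y and s ≤ m_F ⟨c.1,g⟩ for all c in Y, g in c.2}.
0 is in A (F empty, Y = X), and A is bounded above by 1 (Y is rich, so it contains some c with
c.2 nonempty).  Take s in A with s > sup A - δ, with F0 and Y.  K = 1 + max F0.  Let F be finite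
with all elements ≥ K and n given.  Apply TSA to Y and B = {i : m_F(i) ≤ δ}: there is Y' ⊆ Y,
Cond Y', inside B or outside B.  If it is outside B then m_(F0 ∪ F) = m_F0 + m_F > s + δ on Y',
so s + δ is in A, a contradiction with s + δ > sup A.  So it is inside B, and the richness of Y'
gives k ≥ n and Z. -/
def StSUP : Prop :=
  ∀ (X : Set Code), Cond X → ∀ (w : Idx → H) (δ : ℝ), (∀ i, ‖w i‖ ≤ 1) → 0 < δ →
    ∃ Y ⊆ X, Cond Y ∧ ∃ K : ℕ, ∀ F : Finset ℕ, (∀ a ∈ F, K ≤ a) → ∀ n : ℕ,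
      ∃ k, n ≤ k ∧ ∃ Z : Finset (Fin k → Q), (⟨k, Z⟩ : Code) ∈ Y ∧ Big n Z ∧
        ∀ g ∈ Z, ∑ a ∈ F, ‖(w ⟨k, g⟩) a‖ ^ 2 ≤ δ

/-- SEQ (the sequence of blocks; hypotheses HLF, FIN, SUP; 200 lines).
Proof.  Let Y, K be given by SUP for X, w, δ = ε².  Construct (kk n, Z n, P n) recursively, all
kk n ≥ K.  Suppose the terms with index < n are chosen, F = {kk m : m < n}.  Choose N ≥ n, K, with
N > kk (n-1) and sum_(a in F') ‖w ⟨kk (n-1), g⟩ a‖^2 ≤ ε² for all finite F' ⊆ [N,∞) and all g in the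
finite set Z (n-1) (the sums over all a converge).  Let L be given by FIN (n, ε).  SUP with F and
n' = max N L gives k ≥ n', ⟨k,Z⟩ in Y, Big n' Z (hence Big L Z) and
sum_(a in F) ‖w ⟨k,g⟩ a‖² ≤ ε² on Z.  FIN applied to the functions g ↦ (w ⟨k,g⟩) k (norm ≤ 1)
gives Z n ⊆ Z with Big n and P n.  ⟨k, Z n⟩ is in Y ⊆ X by DownC.  kk n = k.  The estimate for
F' ⊆ [kk n, ∞) follows since kk n ≥ N.  (State of the recursion: the finite set of used blocks and
the last triple; or strong recursion on n.) -/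
def StSEQ : Prop :=
  ∀ (X : Set Code), Cond X → ∀ (w : Idx → H) (ε : ℝ), (∀ i, ‖w i‖ ≤ 1) → 0 < ε →
    ∃ (kk : ℕ → ℕ) (Z : ∀ n, Finset (Fin (kk n) → Q)) (P : ∀ n, V (kk n) →L[ℂ] V (kk n)),
      StrictMono kk ∧ (∀ n, n ≤ kk n) ∧ (∀ n, (⟨kk n, Z n⟩ : Code) ∈ X) ∧
      (∀ n, Big n (Z n)) ∧ (∀ n, ‖P n‖ ≤ 1) ∧
      (∀ n, ∀ g ∈ Z n,
        ‖P n ((w ⟨kk n, g⟩) (kk n)) - pz (zz g) ((w ⟨kk n, g⟩) (kk n))‖ ≤ ε) ∧
      (∀ n, ∀ g ∈ Z n, ∑ m ∈ Finset.range n, ‖(w ⟨kk n, g⟩) (kk m)‖ ^ 2 ≤ ε ^ 2) ∧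
      (∀ n, ∀ g ∈ Z n, ∀ F : Finset ℕ, (∀ a ∈ F, kk (n + 1) ≤ a) →
        ∑ a ∈ F, ‖(w ⟨kk n, g⟩) a‖ ^ 2 ≤ ε ^ 2)

/-- TSC (isolating the phase vectors from arbitrary companions; hypothesis SEQ; 200 lines).
Proof.  SEQ with ε/2.  T : H → H is defined by (T v)(a) = P n (v a) if a = kk n for some (unique) n,
and 0 otherwise; it is linear and ‖T‖ ≤ 1 (coordinatewise ‖(T v) a‖ ≤ ‖v a‖; use a bounded
family of operators on the blocks: lp with exponent 2, Memℓp by comparison).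
Y = {⟨kk n, Z'⟩ : Z' ⊆ Z n} = {c : exists n, c.1 = kk n and c.2 corresponds to a subset of Z n};
it is DownC, contained in X, and rich (n ≤ kk n, Big n (Z n)).
Let i = ⟨kk n, g⟩, g in Z n, v = w i.  pz (zeta i) v = lp.single (kk n) (pz (zz g) (v (kk n))).  So
d = T v - pz (zeta i) v has block kk n of norm ≤ ε/2, blocks kk m (m < n) of norms ≤ ‖v (kk m)‖ with
sum of squares ≤ (ε/2)², blocks kk m (m > n) of norms ≤ ‖v (kk m)‖ with sum of squares ≤ (ε/2)²
(all finite subsums, since kk m ≥ kk (n+1)), other blocks 0.  Hence ‖d‖² ≤ 3 (ε/2)² ≤ ε². -/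
def StTSC : Prop :=
  ∀ (X : Set Code), Cond X → ∀ (w : Idx → H) (ε : ℝ), (∀ i, ‖w i‖ ≤ 1) → 0 < ε →
    ∃ Y ⊆ X, Cond Y ∧ ∃ T : H →L[ℂ] H, ∀ c ∈ Y, ∀ g ∈ c.2,
      ‖T (w ⟨c.1, g⟩) - pz (zeta ⟨c.1, g⟩) (w ⟨c.1, g⟩)‖ ≤ ε

/-- CRD (the number of tasks; 80 lines).
Proof.  Idx is countable, so #(Set Idx) ≤ c, #(Idx → ℝ) ≤ c^(aleph 0) = c; H embeds in the functions
(Σ k, (Fin k → Fin 3)) → ℂ by its coordinates (an element of lp is determined by its values, an
element of V k by its coordinates), the index set is countable, so #H ≤ c, #(Idx → H) ≤ c.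
Products with ℕ and sums stay ≤ c. -/
def StCRD : Prop :=
  #(Set Idx ⊕ ((Idx → ℝ) × ℕ) ⊕ ((Idx → H) × ℕ)) ≤ 𝔠

/-- GEN (the generic chain; hypotheses REC, LBD, TSA, TSB, TSC, CRD; 200 lines).
Proof.  Let τ = Set Idx ⊕ ((Idx → ℝ) × ℕ) ⊕ ((Idx → H) × ℕ).  Choose a well-order r on τ all whose
proper initial segments have cardinality < #τ ≤ c (Cardinal.ord_eq and card_typein_lt).  Tasks
D_t ⊆ Set Code:
for B: X with Cond X and (all c in X, g in c.2 have ⟨c.1,g⟩ in B, or all are not in B);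
for (f,n): X with Cond X and: if there is M : H →L[ℝ] H with f i = tst M (zeta i) for all i, then
|f ⟨c.1,g⟩| ≤ 1/(n+1) for all c in X, g in c.2;
for (w,n): X with Cond X and: if ‖w i‖ ≤ 1 for all i, then there is T with the estimate by 1/(n+1).
Apply REC with le = AL.  Hypothesis of REC: given a decreasing family h below i.  The members must
be conditions: use the type P = {X : Set Code // Cond X} for the recursion.  Any two members are
comparable (r is a linear order), also AL X X.  LBD (the index type {j // r j i} has cardinality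
< c) gives W with Cond W and AL W (h a) for all a; TSA, TSB or TSC gives W' ⊆ W in D_i (if the
premise of the task fails take W' = W), and AL W' (h a) since W' ⊆ W.  The result g : τ → P is
the family G.  For the conclusions take n with 1/(n+1) ≤ ε. -/
def StGEN : Prop :=
  PEqC → ∃ (τ : Type) (G : τ → Set Code), (∀ t, Cond (G t)) ∧
    (∀ t t', AL (G t) (G t') ∨ AL (G t') (G t)) ∧
    (∀ B : Set Idx, ∃ t, (∀ c ∈ G t, ∀ g ∈ c.2, (⟨c.1, g⟩ : Idx) ∈ B) ∨
      (∀ c ∈ G t, ∀ g ∈ c.2, (⟨c.1, g⟩ : Idx) ∉ B)) ∧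
    (∀ (M : H →L[ℝ] H) (ε : ℝ), 0 < ε → ∃ t, ∀ c ∈ G t, ∀ g ∈ c.2,
      |tst (⇑M) (zeta ⟨c.1, g⟩)| ≤ ε) ∧
    (∀ (w : Idx → H) (ε : ℝ), (∀ i, ‖w i‖ ≤ 1) → 0 < ε → ∃ t, ∃ T : H →L[ℂ] H,
      ∀ c ∈ G t, ∀ g ∈ c.2, ‖T (w ⟨c.1, g⟩) - pz (zeta ⟨c.1, g⟩) (w ⟨c.1, g⟩)‖ ≤ ε)

/-- ULT (the ultrafilter on the index set; hypotheses HLF, GEN; 150 lines).
Proof.  B belongs to U iff there are t and j such that for all c in G t with j ≤ c.1 and Big j c.2
all ⟨c.1,g⟩, g in c.2, are in B.  Upward closed, contains univ.  Intersection: B1 by (t1,j1), B2 by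
(t2,j2); say AL (G t1) (G t2) with j0; then (t1, max j0 j1 j2) works for B1 ∩ B2, since Big is
monotone (HLF (a)).  The empty set is not in U: G t is rich, so there are c in G t, c.1 ≥ j with
Big j c.2, and c.2 is nonempty (HLF (b)).  For each B, B or its complement is in U by the third
property of GEN: an ultrafilter (Ultrafilter.ofComplNotMemIff or build the filter and use
Ultrafilter.of_compl...).  {i}ᶜ is in U: any t, j = i.1 + 1.  The two properties: GEN with
(t, j = 0). -/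
def StULT : Prop :=
  PEqC → ∃ U : Ultrafilter Idx, (∀ i, ({i} : Set Idx)ᶜ ∈ U) ∧
    (∀ M : H →L[ℝ] H, Tendsto (fun i => tst (⇑M) (zeta i)) (U : Filter Idx) (𝓝 0)) ∧
    (∀ (w : Idx → H) (ε : ℝ), (∀ i, ‖w i‖ ≤ 1) → 0 < ε → ∃ T : H →L[ℂ] H,
      ∀ᶠ i in (U : Filter Idx), ‖T (w i) - pz (zeta i) (w i)‖ ≤ ε)

/-- The pair of properties (1), (2), for a sequence indexed by the natural numbers. -/
def Good (U : Ultrafilter ℕ) (z : ℕ → H) : Prop :=
  (∀ n, ‖z n‖ = 1) ∧
  (∀ M : H →L[ℝ] H, Tendsto (fun n => tst (⇑M) (z n)) (U : Filter ℕ) (𝓝 0)) ∧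
  ∀ (w : ℕ → H) (C ε : ℝ), (∀ n, ‖w n‖ ≤ C) → 0 < ε → ∃ T : H →L[ℂ] H,
    ∀ᶠ n in (U : Filter ℕ), ‖T (w n) - pz (z n) (w n)‖ ≤ ε

/-- NAT (transport to the natural numbers; hypotheses TWI, ULT; 80 lines).
Proof.  Idx is countable and infinite: an equivalence e : ℕ ≃ Idx.  Map the ultrafilter of ULT by
e.symm, z n = zeta (e n); ‖zeta i‖ = ‖zz i.2‖ = 1 (lp.norm_single, TWI (a)).  {n} is not in the
image because {e n}ᶜ is in U.  For (2): C ≤ 0 forces w = 0 (or replace C by max C 1 > 0); apply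
ULT to w (e.symm i) / C with ε / C and use that pz and T are linear in w. -/
def StNAT : Prop :=
  PEqC → ∃ U : Ultrafilter ℕ, (∀ n : ℕ, {n} ∉ U) ∧ ∃ z : ℕ → H, Good U z

/-- CHP (the continuum hypothesis implies p = c; 120 lines).
Proof.  #F < c = aleph 1 means that F is countable.  Enumerate F ∪ {univ} as A_0, A_1, ...
Choose inductively natural numbers p_0 < p_1 < ... with p_n in A_0 ∩ ... ∩ A_n (infinite by
hypothesis: the finite set of those A_m, m ≤ n, that belong to F; adding univ changes nothing).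
P = {p_n}; P \ A_m is contained in {p_0, ..., p_(m-1)}. -/
def StCHP : Prop := (Cardinal.aleph 1 : Cardinal.{0}) = 𝔠 → PEqC

/-- NRM (the norm of the ultrapower; 60 lines).
Proof.  If r < 0 the hypothesis is impossible (norms are nonnegative and U is a proper filter).
Let f' n = f n if ‖f n‖ ≤ r and 0 otherwise: a bounded sequence with sup norm ≤ r, and f - f' is
0 at U-many n, so it is in nullU and cls U f = cls U f'.  The quotient map has norm ≤ 1
(‖cls U f'‖ ≤ ‖f'‖, e.g. quotient_norm_mk_le / Submodule.Quotient.norm_mk_le). -/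
def StNRM : Prop :=
  ∀ (U : Ultrafilter ℕ) (X : Type) [NormedAddCommGroup X] [NormedSpace ℝ X] (f : BS X) (r : ℝ),
    (∀ᶠ n in (U : Filter ℕ), ‖f n‖ ≤ r) → ‖cls U f‖ ≤ r

/-- FUN (functionals given by limits; 120 lines).
Proof.  For f in BS X the real sequence ψ n (f n) is bounded by C ‖f‖, so it has a limit l(f) along
U (compactness of [-a,a], Ultrafilter.le_nhds_of...).  l is linear by uniqueness of limits and
|l(f)| ≤ C ‖f‖ (C ≥ 0 since it bounds norms), and l vanishes on nullU (|ψ n (f n)| ≤ C ‖f n‖).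
Descend to the quotient with Submodule.liftQL. -/
def StFUN : Prop :=
  ∀ (U : Ultrafilter ℕ) (X : Type) [NormedAddCommGroup X] [NormedSpace ℝ X]
    (ψ : ℕ → X →L[ℝ] ℝ) (C : ℝ), (∀ n, ‖ψ n‖ ≤ C) →
    ∃ φ : UP U X →L[ℝ] ℝ, ∀ f : BS X,
      Tendsto (fun n => ψ n (f n)) (U : Filter ℕ) (𝓝 (φ (cls U f)))

/-- RED (from (1), (2) to non-reflexivity; hypotheses NRM, FUN; 250 lines).
Proof.  Let z be Good.  Let a = class of (i (z n)), b = class of (i (I • z n)) in UP U X (bounded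
sequences, ‖i (z n)‖ ≤ ‖i‖).  By FUN let φ(cls x) = lim Re <z n, q (x n)> and
φ'(cls x) = lim Re <I • z n, q (x n)> (functionals of norm ≤ ‖q‖).  S = φ(·) a
(ContinuousLinearMap.smulRight).  Suppose ultraAlg U X is reflexive.
(A) S leaves invariant each closed N that is invariant under the algebra.  Note that
upow U T is in the algebra for each T.  Let v = cls x in N, and c_n = inner (z n) (q (x n)), a
bounded complex sequence with limit c along U; φ(v) = Re c.  If c = 0 then S v = 0 is in N.  Let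
c ≠ 0, C a bound of ‖q (x n)‖.  Given ε > 0, (2) for w n = q (x n) gives T : H →L[ℂ] H with
‖T (q (x n)) - c_n • z n‖ ≤ ε for U-many n.  Let λ = (Re c)/c (complex), T' = i ∘ (λ • T) ∘ q, a
bounded real-linear operator on X.  Then T'^U v = cls (n ↦ i (λ • T (q (x n)))) is in N, and
‖i (λ • T (q (x n))) - (Re c) • i (z n)‖ ≤ ‖i‖ (|λ| ε + |λ| |c_n - c|) because
λ c = Re c; for U-many n this is ≤ ‖i‖ |λ| (2 ε).  So by NRM ‖T'^U v - S v‖ ≤ 2 ‖i‖ |λ| ε (S v is
(Re c) a), and S v is in the closure of N, which is N.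
(B) So S is in the algebra.  Take F = {(a, φ), (b, φ')}, ε = 1/4 in the definition of WOTClosure:
there is T with |φ(S a) - φ(T^U a)| < 1/4 and |φ'(S b) - φ'(T^U b)| < 1/4.  Now
φ(a) = lim Re <z n, q (i (z n))> = lim Re <z n, z n> = 1, φ(b) = lim Re <z n, I • z n> = 0, so
S a = a, S b = 0, φ(S a) = 1, φ'(S b) = 0.  With M = q ∘ T ∘ i (real-linear on H),
φ(T^U a) - φ'(T^U b) = lim (Re <z n, M (z n)> - Re <I • z n, M (I • z n)>) = lim tst M (z n) = 0.
So 1 = φ(S a) - φ'(S b) < 0 + 1/4 + 1/4, a contradiction. -/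
def StRED : Prop :=
  ∀ (U : Ultrafilter ℕ) (z : ℕ → H), Good U z →
    ∀ (X : Type) [NormedAddCommGroup X] [NormedSpace ℝ X] (i : H →L[ℝ] X) (q : X →L[ℝ] H),
      (∀ h, q (i h) = h) → ¬ IsReflexive (ultraAlg U X)

/-- WAL (products of Rademacher functions; 120 lines).
Proof.  rad n x = (-1)^⌊2^(n+1) x⌋.  Let N = max F.  On [m/2^N, (m+1)/2^N), 0 ≤ m < 2^N, each rad n
with n < N is constant (2^(n+1) x stays in an interval [l, l+1) of integers), and rad N is
(-1)^(2m) = 1 on the left half and -1 on the right half.  So the integral over this interval is 0;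
sum over m (the point 1 is a null set).  Alternatively: the substitution by the measure
preserving involution that exchanges the halves of all these intervals. -/
def StWAL : Prop := ∀ F : Finset ℕ, F.Nonempty → ∫ x, ∏ n ∈ F, rad n x ∂mI = 0

/-- KHI (Khintchine's inequality, upper half; hypothesis WAL; 200 lines).
Proof.  mI is a probability measure, rad n is measurable with values 1, -1.  First let
sum_(n in F) a n ^ 2 ≤ 1 and S = sum_(n in F) a n rad n (bounded measurable).  Pointwise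
exp S = prod (cosh (a n) + rad n sinh (a n)) (rad n = 1 or -1).  Expand the product
(Finset.prod_add): the integral of every term with a nonempty product of rad is 0 by WAL, so
∫ exp S = prod cosh (a n) ≤ exp(sum a n ^2/2) ≤ exp(1/2) (Real.cosh_le_exp_half_sq).  The same for
-S.  Let m = ⌈p.toReal⌉₊ ≥ 1.  |S|^m ≤ m! exp |S| ≤ m! (exp S + exp(-S)), so
∫ |S|^m ≤ 2 m! exp(1/2) and eLpNorm S p ≤ eLpNorm S m ≤ C := (2 m! exp(1/2))^(1/m)
(eLpNorm_le_eLpNorm_of_exponent_le on a probability space).  In general, with σ = sqrt(sum a²) > 0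
apply this to a/σ; if σ = 0 all a n (n in F) are 0. -/
def StKHI : Prop :=
  ∀ p : ℝ≥0∞, 1 ≤ p → p ≠ ∞ → ∃ C : ℝ, 0 ≤ C ∧ ∀ (F : Finset ℕ) (a : ℕ → ℝ),
    eLpNorm (fun x => ∑ n ∈ F, a n * rad n x) p mI ≤
      ENNReal.ofReal (C * Real.sqrt (∑ n ∈ F, a n ^ 2))

/-- EMB (a complemented copy of ℓ² in L^p; hypotheses WAL, KHI; 250 lines).
Proof.  Let p' be the conjugate exponent (1 < p' < oo), C = C_p, C' = C_p' from KHI.  rn = class of
rad n in LpI p.  For a in ℓ² the series sum a n • rn converges in LpI p (finite sums are Cauchy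
by KHI: norm of sum over F ≤ C (sum over F of a²)^(1/2)); i a = its sum, linear, ‖i a‖ ≤ C ‖a‖.
For f in LpI p let c n (f) = ∫ f rad n (f is integrable on the probability space).  For finite F:
sum_F c n ^2 = ∫ f * (sum_F c n rad n) ≤ ‖f‖_p ‖sum_F c n rad n‖_p' ≤
‖f‖_p C' (sum_F c n^2)^(1/2) (Hölder), so (sum_F c n ^2)^(1/2) ≤ C' ‖f‖: q f = (c n(f))_n is
in ℓ², linear in f, norm ≤ C' ‖f‖.  q (i a) = a: c n is continuous on LpI p, and
c n(rm) = ∫ rad m rad n = 1 if m = n (rad² = 1) and 0 otherwise (WAL with F = {m,n}). -/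
def StEMB : Prop :=
  ∀ (p : ℝ≥0∞) [Fact (1 ≤ p)], 1 < p → p ≠ ∞ →
    ∃ (i : lp (fun _ : ℕ => ℝ) 2 →L[ℝ] LpI p) (q : LpI p →L[ℝ] lp (fun _ : ℕ => ℝ) 2),
      ∀ a, q (i a) = a

/-- HLB (H as a complemented subspace of the real ℓ²; 150 lines).
Proof.  Let e : (Σ k, (Fin k → Fin 3)) × Bool → ℕ be injective (a countable type).  i h = the
sequence with value Re ((h k) s) at e (⟨k,s⟩, false), Im ((h k) s) at e (⟨k,s⟩, true) and 0
elsewhere; q a = the element h with (h k) s = a (e (⟨k,s⟩,false)) + I a (e (⟨k,s⟩,true)).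
sum over k, s of |(h k) s|² = ‖h‖² (norm of lp with exponent 2 of Euclidean spaces), so i is an
isometry and ‖q a‖ ≤ ‖a‖.  (Any other way is fine, e.g. a real Hilbert basis of H, countable
because H is separable.) -/
def StHLB : Prop :=
  ∃ (i : H →L[ℝ] lp (fun _ : ℕ => ℝ) 2) (q : lp (fun _ : ℕ => ℝ) 2 →L[ℝ] H), ∀ h, q (i h) = h

end Pool.Agent.Helper49.RU
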