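import Pool.Agent.Helper49.RU.Fin2
import Pool.Agent.Helper19.RU.M_AVG
import Pool.Agent.Helper10.RU.M_TWI
import Pool.Agent.Helper33.RU.M_SEC
import Pool.Agent.Helper51.RU.M_HLF
import Pool.Agent.Helper16.RU.M_FIN
import Pool.Agent.Helper73.RU.M_CHR
import Pool.Agent.Helper94.RU.M_QUA
import Pool.Agent.Helper84.RU.M_CUB
import Pool.Agent.Helper72.RU.M_ANT
import Pool.Agent.Helper15.RU.M_REC
import Pool.Agent.Helper34.RU.M_LBD
import Pool.Agent.Helper75.RU.M_TSA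
import Pool.Agent.Helper80.RU.M_TSB
import Pool.Agent.Helper7.RU.M_SUP
import Pool.Agent.Helper48.RU.M_SEQ
import Pool.Agent.Helper30.RU.M_TSC
import Pool.Agent.Helper2.RU.M_CRD
import Pool.Agent.Helper11.RU.M_GEN
import Pool.Agent.Helper40.RU.M_ULT
import Pool.Agent.Helper32.RU.M_NAT
import Pool.Agent.Helper14.RU.M_CHP
import Pool.Agent.Helper29.RU.M_NRM
import Pool.Agent.Helper21.RU.M_FUN
import Pool.Agent.Helper87.RU.M_RED
import Pool.Agent.Helper81.RU.M_WAL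
import Pool.Agent.Helper26.RU.M_KHI
import Pool.Agent.Helper64.RU.M_EMB
import Pool.Agent.Helper47.RU.M_HLB

/-!
Project RU (MP_a60174_an): all modules together.
-/

set_option autoImplicit false

namespace Pool.Agent.Helper49.RU

theorem aAVG : StAVG := Pool.Agent.Helper19.RU.hAVG
theorem aTWI : StTWI := Pool.Agent.Helper10.RU.hTWI
theorem aSEC : StSEC := Pool.Agent.Helper33.RU.hSEC
theorem aHLF : StHLF := Pool.Agent.Helper51.RU.hHLF
theorem aFIN : StFIN := Pool.Agent.Helper16.RU.hFIN aAVG aTWI aSEC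
theorem aCHR : StCHR := Pool.Agent.Helper73.RU.hCHR
theorem aQUA : StQUA := Pool.Agent.Helper94.RU.hQUA aCHR
theorem aCUB : StCUB := Pool.Agent.Helper84.RU.hCUB
theorem aANT : StANT := Pool.Agent.Helper72.RU.hANT aHLF aQUA aCUB
theorem aREC : StREC := Pool.Agent.Helper15.RU.hREC
theorem aLBD : StLBD := Pool.Agent.Helper34.RU.hLBD
theorem aTSA : StTSA := Pool.Agent.Helper75.RU.hTSA aHLF
theorem aTSB : StTSB := Pool.Agent.Helper80.RU.hTSB aHLF aANT
theorem aSUP : StSUP := Pool.Agent.Helper7.RU.hSUP aHLF aTSA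
theorem aSEQ : StSEQ := Pool.Agent.Helper48.RU.hSEQ aHLF aFIN aSUP
theorem aTSC : StTSC := Pool.Agent.Helper30.RU.hTSC aSEQ
theorem aCRD : StCRD := Pool.Agent.Helper2.RU.hCRD
theorem aGEN : StGEN := Pool.Agent.Helper11.RU.hGEN aREC aLBD aTSA aTSB aTSC aCRD
theorem aULT : StULT := Pool.Agent.Helper40.RU.hULT aHLF aGEN
theorem aNAT : StNAT := Pool.Agent.Helper32.RU.hNAT aTWI aULT
theorem aCHP : StCHP := Pool.Agent.Helper14.RU.hCHP
theorem aNRM : StNRM := Pool.Agent.Helper29.RU.hNRM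
theorem aFUN : StFUN := Pool.Agent.Helper21.RU.hFUN
theorem aRED : StRED := Pool.Agent.Helper87.RU.hRED aNRM aFUN
theorem aWAL : StWAL := Pool.Agent.Helper81.RU.hWAL
theorem aKHI : StKHI := Pool.Agent.Helper26.RU.hKHI aWAL
theorem aEMB : StEMB := Pool.Agent.Helper64.RU.hEMB aWAL aKHI
theorem aHLB : StHLB := Pool.Agent.Helper47.RU.hHLB

end Pool.Agent.Helper49.RU
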