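import Pool.Agent.Helper49.RU.FDefs

/-!
The class of conjugation-free ultrafilters (MP_a60174_an), and the algebra of the question.
-/

namespace Pool.Agent.Helper49.RU

open MeasureTheory Filter Topology
open scoped ENNReal

/-- The complex Hilbert space `ℓ²`. -/
abbrev L2C : Type := lp (fun _ : ℕ => ℂ) 2

section
variable {E : Type} [NormedAddCommGroup E] [InnerProductSpace ℂ E]

/-- Along `U`, `⟨z n, M (z n)⟩ → 0` for every bounded conjugate-linear operator `M`. -/
def NoConj (U : Ultrafilter ℕ) (z : ℕ → E) : Prop :=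
  ∀ M : E →L⋆[ℂ] E, Tendsto (fun n => (inner ℂ (z n) (M (z n)) : ℂ)) (U : Filter ℕ) (𝓝 0)

/-- For every bounded sequence `w n` and every `ε > 0` some bounded linear operator `T` maps `w n` to
`⟨z n, w n⟩ z n` up to an error `ε`, for `U`-almost all `n`. -/
def Isolates (U : Ultrafilter ℕ) (z : ℕ → E) : Prop :=
  ∀ (w : ℕ → E) (C ε : ℝ), (∀ n, ‖w n‖ ≤ C) → 0 < ε → ∃ T : E →L[ℂ] E,
    ∀ᶠ n in (U : Filter ℕ), ‖T (w n) - (inner ℂ (z n) (w n) : ℂ) • z n‖ ≤ ε

end

/-- `U` is conjugation-free: there are unit vectors `z n` of the complex Hilbert space `ℓ²` with both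
properties. -/
def ConjFree (U : Ultrafilter ℕ) : Prop :=
  ∃ z : ℕ → L2C, (∀ n, ‖z n‖ = 1) ∧ NoConj U z ∧ Isolates U z

section
variable {Y : Type*} [AddCommGroup Y] [Module ℝ Y] [TopologicalSpace Y]

/-- The closure of a set of bounded operators in the weak operator topology. -/
def WOTcl (A : Set (Y →L[ℝ] Y)) : Set (Y →L[ℝ] Y) :=
  {S | ∀ (F : Finset (Y × (Y →L[ℝ] ℝ))) (ε : ℝ), 0 < ε →
    ∃ R ∈ A, ∀ x ∈ F, |x.2 (S x.1) - x.2 (R x.1)| < ε}

/-- The subspace `N` is closed and invariant under all elements of `A`. -/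
def ClosedInv (A : Set (Y →L[ℝ] Y)) (N : Submodule ℝ Y) : Prop :=
  IsClosed (N : Set Y) ∧ ∀ R ∈ A, ∀ x ∈ N, R x ∈ N

/-- `A` is reflexive: it contains every bounded operator which leaves invariant each closed subspace
that is invariant under all its elements. -/
def Refl (A : Set (Y →L[ℝ] Y)) : Prop :=
  ∀ S : Y →L[ℝ] Y, (∀ N : Submodule ℝ Y, ClosedInv A N → ∀ x ∈ N, S x ∈ N) → S ∈ A

end

section
variable (U : Ultrafilter ℕ) (X : Type*) [NormedAddCommGroup X] [NormedSpace ℝ X]

/-- The set of all ultrapowers `T^U` of bounded operators `T` on `X`. -/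
def upows : Set (UP U X →L[ℝ] UP U X) := Set.range (upow U (X := X))

/-- The closure of the set of all ultrapowers `T^U` in the weak operator topology of `B(X^U)` is
a reflexive algebra. -/
def AlgReflexive : Prop := Refl (WOTcl (upows U X))

end

end Pool.Agent.Helper49.RU
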