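import Pool.Agent.Helper49.RU.CDefs
import Pool.Agent.Helper49.RU.St

/-!
The class of conjugation-free ultrafilters and the working condition `Good`.
-/

namespace Pool.Agent.Helper49.RU

open MeasureTheory Filter Topology Complex
open scoped ENNReal Cardinal ComplexConjugate

/-- indices of the complex coordinates of `H` -/
private abbrev Jx : Type := Σ k : ℕ, (Fin k → Fin 3)

private instance instJx : Infinite Jx :=
  Infinite.of_injective (fun n : ℕ => (⟨n, fun _ => 0⟩ : Jx)) (by
    intro a b h
    simpa using congrArg Sigma.fst h)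

/-- the complex orthonormal basis of `H` -/
private noncomputable def vc (x : Jx) : H :=
  lp.single 2 x.1 (WithLp.toLp 2 (Pi.single x.2 (1 : ℂ)))

private theorem vc_inner (x : Jx) (f : H) : (inner ℂ (vc x) f : ℂ) = f x.1 x.2 := by
  unfold vc
  rw [lp.inner_single_left, PiLp.inner_apply, Finset.sum_eq_single x.2]
  · simp
  · intro s _ hs
    simp [Pi.single_eq_of_ne hs]
  · intro h
    exact absurd (Finset.mem_univ _) h

private theorem vc_on : Orthonormal ℂ vc := by
  rw [orthonormal_iff_ite]
  rintro ⟨k, s⟩ ⟨l, t⟩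
  rw [vc_inner]
  simp only
  by_cases hkl : k = l
  · subst hkl
    have h1 : (vc (⟨k, t⟩) : H) k = WithLp.toLp 2 (Pi.single t (1 : ℂ)) := by
      unfold vc
      exact lp.single_apply_self _ _ _
    rw [h1]
    by_cases hst : s = t
    · subst hst
      simp
    · rw [if_neg]
      · simp [Pi.single_eq_of_ne hst]
      · intro h
        apply hst
        simpa using h
  · have h1 : (vc (⟨l, t⟩) : H) k = 0 := by
      unfold vc
      exact lp.single_apply_ne _ _ _ hkl
    rw [h1, if_neg]
    · simp
    · intro h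
      apply hkl
      exact congrArg (fun z : Jx => z.1) h

private theorem vc_tot : (Submodule.span ℂ (Set.range vc))ᗮ = ⊥ := by
  rw [eq_bot_iff]
  intro f hf
  rw [Submodule.mem_bot]
  have h1 : ∀ x, (inner ℂ (vc x) f : ℂ) = 0 := fun x =>
    (Submodule.mem_orthogonal _ f).1 hf (vc x) (Submodule.subset_span ⟨x, rfl⟩)
  ext k s
  have h2 := h1 ⟨k, s⟩
  rw [vc_inner] at h2
  simpa using h2

/-- A unitary between the two Hilbert spaces. -/
theorem exists_unitary : ∃ _ : H ≃ₗᵢ[ℂ] L2C, True := by
  obtain ⟨e⟩ : Nonempty (ℕ ≃ Jx) := by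
    obtain ⟨d⟩ := nonempty_denumerable Jx
    exact ⟨(Denumerable.eqv Jx).symm⟩
  have hon : Orthonormal ℂ (vc ∘ e) := vc_on.comp e e.injective
  have htot : (Submodule.span ℂ (Set.range (vc ∘ e)))ᗮ = ⊥ := by
    rw [e.surjective.range_comp]
    exact vc_tot
  exact ⟨(HilbertBasis.mkOfOrthogonalEqBot hon htot).repr, trivial⟩

section Anti

variable {E : Type*} [NormedAddCommGroup E] [InnerProductSpace ℂ E]

/-- The conjugate-linear part of a bounded real-linear operator. -/
noncomputable def antiPart (f : E → E) (ha : ∀ v w, f (v + w) = f v + f w)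
    (hs : ∀ (c : ℝ) (v : E), f ((c : ℂ) • v) = (c : ℂ) • f v) (K : ℝ)
    (hK : ∀ v, ‖f v‖ ≤ K * ‖v‖) : E →L⋆[ℂ] E :=
  LinearMap.mkContinuous
    { toFun := fun v => (1 / 2 : ℂ) • (f v + Complex.I • f (Complex.I • v))
      map_add' := by
        intro v w
        simp only [smul_add, ha]
        abel
      map_smul' := by
        intro c v
        have h0 : c = (c.re : ℂ) + (c.im : ℂ) * Complex.I := (Complex.re_add_im c).symm
        have h1 : f (c • v) = (c.re : ℂ) • f v + (c.im : ℂ) • f (Complex.I • v) := by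
          conv_lhs => rw [h0]
          rw [add_smul, mul_smul, ha, hs, hs]
        have h2 : f (Complex.I • (c • v)) = (c.re : ℂ) • f (Complex.I • v) +
            ((-c.im : ℝ) : ℂ) • f v := by
          have h3 : Complex.I • (c • v) = (c.re : ℂ) • (Complex.I • v) +
              ((-c.im : ℝ) : ℂ) • v := by
            rw [smul_smul, smul_smul, ← add_smul]
            congr 1
            conv_lhs => rw [h0]
            push_cast
            linear_combination (c.im : ℂ) * Complex.I_sq
          rw [h3, ha, hs, hs]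
        have h4 : (conj c : ℂ) = c.re - c.im * Complex.I := by
          apply Complex.ext <;> simp
        simp only [h1, h2]
        rw [h4]
        match_scalars
        · ring
        · linear_combination ((c.im : ℂ) / 2) * Complex.I_sq } K (by
      intro v
      change ‖(1 / 2 : ℂ) • (f v + Complex.I • f (Complex.I • v))‖ ≤ K * ‖v‖
      rw [norm_smul]
      have h1 : ‖f v‖ ≤ K * ‖v‖ := hK v
      have h2 : ‖Complex.I • f (Complex.I • v)‖ ≤ K * ‖v‖ := by
        rw [norm_smul, Complex.norm_I, one_mul]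
        refine (hK _).trans ?_
        rw [norm_smul, Complex.norm_I, one_mul]
      have h3 := norm_add_le (f v) (Complex.I • f (Complex.I • v))
      have h4 : ‖(1 / 2 : ℂ)‖ = 1 / 2 := by norm_num
      rw [h4]
      linarith)

theorem tst_eq (f : E → E) (ha : ∀ v w, f (v + w) = f v + f w)
    (hs : ∀ (c : ℝ) (v : E), f ((c : ℂ) • v) = (c : ℂ) • f v) (K : ℝ)
    (hK : ∀ v, ‖f v‖ ≤ K * ‖v‖) (z : E) :
    tst f z = 2 * (inner ℂ z (antiPart f ha hs K hK z) : ℂ).re := by
  have h1 : antiPart f ha hs K hK z = (1 / 2 : ℂ) • (f z + Complex.I • f (Complex.I • z)) := rfl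
  rw [h1, inner_smul_right, inner_add_right, inner_smul_right]
  unfold tst
  rw [inner_smul_left]
  simp only [Complex.conj_I, Complex.mul_re, Complex.add_re, Complex.add_im, Complex.I_re,
    Complex.I_im, Complex.neg_re, Complex.neg_im]
  norm_num
  ring

theorem tst_anti (M : E →L⋆[ℂ] E) (z : E) :
    tst (⇑M) z = 2 * (inner ℂ z (M z) : ℂ).re := by
  unfold tst
  have h2 : M (Complex.I • z) = -(Complex.I • M z) := by
    rw [map_smulₛₗ, Complex.conj_I, neg_smul]
  rw [h2, inner_neg_right, inner_smul_left, inner_smul_right, Complex.conj_I]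
  simp
  ring

end Anti

private theorem real_smul_H (c : ℝ) (v : H) : c • v = (c : ℂ) • v := by
  apply lp.ext
  funext k
  ext s
  rw [lp.coeFn_smul, lp.coeFn_smul]
  simp

/-- A conjugate-linear operator of `H` as a real-linear one. -/
noncomputable def toReal (M : H →L⋆[ℂ] H) : H →L[ℝ] H :=
  LinearMap.mkContinuous
    { toFun := fun v => M v
      map_add' := fun v w => map_add M v w
      map_smul' := by
        intro c v
        change M (c • v) = c • M v
        rw [real_smul_H, real_smul_H, map_smulₛₗ, Complex.conj_ofReal] } ‖M‖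
    (fun v => M.le_opNorm v)

theorem toReal_coe (M : H →L⋆[ℂ] H) : (⇑(toReal M) : H → H) = ⇑M := rfl

/-- From the class to the working condition. -/
theorem good_of_conjFree {U : Ultrafilter ℕ} (h : ConjFree U) : ∃ z : ℕ → H, Good U z := by
  obtain ⟨z, hz, hM, hw⟩ := h
  obtain ⟨W, -⟩ := exists_unitary
  refine ⟨fun n => W.symm (z n), fun n => by simp [hz n], fun M => ?_, fun w C ε hC hε => ?_⟩
  · have ha : ∀ v w, (⇑M : H → H) (v + w) = M v + M w := fun v w => map_add M v w
    have hs : ∀ (c : ℝ) (v : H), (⇑M : H → H) ((c : ℂ) • v) = (c : ℂ) • M v := by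
      intro c v
      rw [← real_smul_H, ← real_smul_H, map_smul]
    obtain ⟨B, hB⟩ : ∃ B : H →L⋆[ℂ] H, ∀ z, tst (⇑M) z = 2 * (inner ℂ z (B z) : ℂ).re :=
      ⟨antiPart (⇑M) ha hs ‖M‖ (fun v => M.le_opNorm v), fun z => tst_eq _ _ _ _ _ z⟩
    have h1 := hM ((W.toLinearIsometry.toContinuousLinearMap.comp (B.comp
      W.symm.toLinearIsometry.toContinuousLinearMap)))
    have h2 : ∀ n, tst (⇑M) (W.symm (z n)) = 2 * (inner ℂ (z n)
        ((W.toLinearIsometry.toContinuousLinearMap.comp (B.comp
          W.symm.toLinearIsometry.toContinuousLinearMap)) (z n)) : ℂ).re := by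
      intro n
      rw [hB]
      congr 2
      rw [← W.inner_map_map]
      simp
    simp only [h2]
    have h3 := ((Complex.continuous_re.tendsto 0).comp h1).const_mul 2
    simpa using h3
  · obtain ⟨T, hT⟩ := hw (fun n => W (w n)) C ε (fun n => by simpa using hC n) hε
    refine ⟨W.symm.toLinearIsometry.toContinuousLinearMap.comp (T.comp
      W.toLinearIsometry.toContinuousLinearMap), ?_⟩
    filter_upwards [hT] with n hn
    rw [← W.norm_map]
    unfold pz
    have h1 : (inner ℂ (W.symm (z n)) (w n) : ℂ) = inner ℂ (z n) (W (w n)) := by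
      rw [← W.inner_map_map]
      simp
    rw [h1]
    simpa using hn

/-- From the working condition to the class. -/
theorem conjFree_of_good {U : Ultrafilter ℕ} {z : ℕ → H} (h : Good U z) : ConjFree U := by
  obtain ⟨hz, hM, hw⟩ := h
  obtain ⟨W, -⟩ := exists_unitary
  refine ⟨fun n => W (z n), fun n => by simp [hz n], fun M => ?_, fun w C ε hC hε => ?_⟩
  · obtain ⟨N, hN0⟩ : ∃ N : H →L⋆[ℂ] H, ∀ v, N v = W.symm (M (W v)) :=
      ⟨W.symm.toLinearIsometry.toContinuousLinearMap.comp (M.comp
      W.toLinearIsometry.toContinuousLinearMap), fun v => rfl⟩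
    have hN : ∀ n, (inner ℂ (W (z n)) (M (W (z n))) : ℂ) = inner ℂ (z n) (N (z n)) := by
      intro n
      rw [← W.inner_map_map (z n), hN0]
      simp
    simp only [hN]
    obtain ⟨N2, hN2⟩ : ∃ N2 : H →L⋆[ℂ] H, ∀ v, N2 v = Complex.I • N v :=
      ⟨Complex.I • N, fun v => rfl⟩
    have h1 := hM (toReal N)
    have h2 := hM (toReal N2)
    rw [toReal_coe] at h1 h2
    have h3 : ∀ n, tst (⇑N) (z n) = 2 * (inner ℂ (z n) (N (z n)) : ℂ).re := fun n => tst_anti N _
    have h3' : ∀ n, tst (⇑N2) (z n) = -(2 * (inner ℂ (z n) (N (z n)) : ℂ).im) := by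
      intro n
      rw [tst_anti N2, hN2, inner_smul_right]
      simp
    simp only [h3] at h1
    simp only [h3'] at h2
    rw [tendsto_zero_iff_norm_tendsto_zero]
    have h4 : Tendsto (fun n => |(inner ℂ (z n) (N (z n)) : ℂ).re| +
        |(inner ℂ (z n) (N (z n)) : ℂ).im|) (U : Filter ℕ) (𝓝 0) := by
      have a1 := (h1.const_mul (1 / 2)).abs
      have a2 := (h2.const_mul (1 / 2)).abs
      have a3 := a1.add a2
      simp only [mul_zero, abs_zero, add_zero] at a3
      refine a3.congr (fun n => ?_)
      congr 1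
      · congr 1; ring
      · rw [← abs_neg]; congr 1; ring
    exact squeeze_zero (fun n => norm_nonneg _)
      (fun n => Complex.norm_le_abs_re_add_abs_im _) h4
  · obtain ⟨T, hT⟩ := hw (fun n => W.symm (w n)) C ε (fun n => by simpa using hC n) hε
    refine ⟨W.toLinearIsometry.toContinuousLinearMap.comp (T.comp
      W.symm.toLinearIsometry.toContinuousLinearMap), ?_⟩
    filter_upwards [hT] with n hn
    rw [← W.symm.norm_map]
    unfold pz at hn
    have h1 : (inner ℂ (W (z n)) (w n) : ℂ) = inner ℂ (z n) (W.symm (w n)) := by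
      rw [← W.inner_map_map (z n)]
      simp
    rw [h1]
    simpa using hn

end Pool.Agent.Helper49.RU
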