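import Pool.Agent.Helper49.RU.FDefs

/-!
Working definitions for project RU (MP_a60174_an).
-/

namespace Pool.Agent.Helper49.RU

open MeasureTheory Filter Topology Complex
open scoped ENNReal Cardinal ComplexConjugate

/-- The alphabet of the index cubes: nine letters. -/
abbrev Q : Type := ZMod 3 × ZMod 3

/-- The `k`-th block, `(C^3)^(tensor k)`, with its orthonormal basis indexed by `Fin k → Fin 3`. -/
noncomputable abbrev V (k : ℕ) : Type := EuclideanSpace ℂ (Fin k → Fin 3)

/-- The complex Hilbert space, the `ℓ²`-sum of all blocks. -/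
noncomputable abbrev H : Type := lp V 2

/-- The index set of the vectors `zeta`. -/
abbrev Idx : Type := Σ k : ℕ, (Fin k → Q)

/-- Finite sets of indices inside one block. -/
abbrev Code : Type := Σ k : ℕ, Finset (Fin k → Q)

/-- A primitive cube root of one. -/
noncomputable def om : ℂ := Complex.exp (2 * Real.pi * Complex.I / 3)

/-- The exponent of the phase: `0`, `x.1`, `x.2` for the letters `0`, `1`, `2`. -/
def ph (s : Fin 3) (x : Q) : ZMod 3 := if s = 0 then 0 else if s = 1 then x.1 else x.2

/-- Three characters of the group `Q`. -/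
noncomputable def chi0 (s : Fin 3) (x : Q) : ℂ := om ^ (ph s x).val

/-- The product character for a finite index type `J`. -/
noncomputable def chi {J : Type} [Fintype J] (s : J → Fin 3) (g : J → Q) : ℂ :=
  ∏ j, chi0 (s j) (g j)

/-- The normalising factor `3^(-|J|/2)`. -/
noncomputable def nf (J : Type) [Fintype J] : ℂ := (((Real.sqrt 3) ^ (Fintype.card J))⁻¹ : ℝ)

/-- The phase vector with parameter `g`: its `s`-th coordinate is `3^(-k/2) chi s g`. -/
noncomputable def zz {J : Type} [Fintype J] [DecidableEq J] (g : J → Q) :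
    EuclideanSpace ℂ (J → Fin 3) :=
  WithLp.toLp 2 (fun s => nf J * chi s g)

/-- The phase vector in the Hilbert space `H`. -/
noncomputable def zeta (i : Idx) : H := lp.single 2 i.1 (zz i.2)

/-- The test form: `Re <z, M z> - Re <iz, M (iz)>`; it is twice the antilinear part of `M`. -/
noncomputable def tst {E : Type*} [NormedAddCommGroup E] [InnerProductSpace ℂ E]
    (M : E → E) (z : E) : ℝ :=
  (inner ℂ z (M z)).re - (inner ℂ (Complex.I • z) (M (Complex.I • z))).re

/-- The rank one projection `w ↦ <z,w> z` (`z` a unit vector). -/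
noncomputable def pz {E : Type*} [NormedAddCommGroup E] [InnerProductSpace ℂ E]
    (z w : E) : E := (inner ℂ z w : ℂ) • z

/-- The average of `v` over all `t` that agree with `s` on `T`. -/
noncomputable def av {J : Type} [Fintype J] [DecidableEq J] (T : Finset J)
    (v : (J → Fin 3) → ℂ) (s : J → Fin 3) : ℂ :=
  (∑ t : J → Fin 3, if (∀ j ∈ T, t j = s j) then v t else 0) /
    (3 : ℂ) ^ (Fintype.card J - T.card)

/-- The twisted average: conjugation of `av T` by the multiplication by the phases of `g`. -/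
noncomputable def pp {J : Type} [Fintype J] [DecidableEq J] (T : Finset J) (g : J → Q)
    (w : EuclideanSpace ℂ (J → Fin 3)) : EuclideanSpace ℂ (J → Fin 3) :=
  WithLp.toLp 2 (fun s => chi s g * av T (fun t => conj (chi t g) * w t) s)

/-- `Z` is contained in a subcube with set of free coordinates `S` and has density at least
`2^(-|S|/(L+1))` there, and `|S| ≥ L`. -/
def Big (L : ℕ) {k : ℕ} (Z : Finset (Fin k → Q)) : Prop :=
  ∃ (S : Finset (Fin k)) (q : Fin k → Q), (∀ g ∈ Z, ∀ j, j ∉ S → g j = q j) ∧ L ≤ S.card ∧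
    (9 : ℝ) ^ S.card ≤ (Z.card : ℝ) * (2 : ℝ) ^ ((S.card : ℝ) / ((L : ℝ) + 1))

/-- Families closed under passing to smaller sets inside the same block. -/
def DownC (X : Set Code) : Prop :=
  ∀ (k : ℕ) (Z Z' : Finset (Fin k → Q)), Z' ⊆ Z → (⟨k, Z⟩ : Code) ∈ X → (⟨k, Z'⟩ : Code) ∈ X

/-- Families that contain arbitrarily big sets in arbitrarily late blocks. -/
def Rich (X : Set Code) : Prop :=
  ∀ j : ℕ, ∃ k : ℕ, j ≤ k ∧ ∃ Z : Finset (Fin k → Q), (⟨k, Z⟩ : Code) ∈ X ∧ Big j Z

/-- The conditions. -/
def Cond (X : Set Code) : Prop := DownC X ∧ Rich X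

/-- Almost inclusion. -/
def AL (X Y : Set Code) : Prop :=
  ∃ j : ℕ, ∀ c ∈ X, j ≤ c.1 → Big j c.2 → c ∈ Y

/-- The antilinear part of a real-linear map. -/
def IsAnti {E : Type*} [NormedAddCommGroup E] [InnerProductSpace ℂ E] (B : E → E) : Prop :=
  (∀ v w, B (v + w) = B v + B w) ∧ ∀ (c : ℂ) (v : E), B (c • v) = conj c • B v

/-- The Rademacher functions on the line. -/
noncomputable def rad (n : ℕ) (x : ℝ) : ℝ := (-1 : ℝ) ^ (⌊(2 : ℝ) ^ (n + 1) * x⌋)

/-- Lebesgue measure on the unit interval. -/
noncomputable abbrev mI : Measure ℝ := volume.restrict (Set.Icc (0 : ℝ) 1)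

end Pool.Agent.Helper49.RU
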