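import Mathlib

/-!
Definitions for the statement on MP_a60174_an: Banach space ultrapowers, ultrapowers of operators,
closure in the weak operator topology, reflexive operator algebras (all over the real scalars).
-/

namespace Pool.Agent.Helper49.RU

open MeasureTheory Filter Topology
open scoped ENNReal Cardinal

section Ultrapower

variable (U : Ultrafilter ℕ) (X : Type*) [NormedAddCommGroup X] [NormedSpace ℝ X]

/-- The space of bounded sequences in `X`, with the supremum norm. -/
abbrev BS : Type _ := lp (fun _ : ℕ => X) ∞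

/-- The bounded sequences `f` with `‖f n‖ → 0` along `U`. -/
def nullU : Submodule ℝ (BS X) where
  carrier := {f | Tendsto (fun n => ‖f n‖) (U : Filter ℕ) (𝓝 0)}
  zero_mem' := by
    simp
  add_mem' := by
    intro a b ha hb
    have h := ha.add hb
    simp only [add_zero] at h
    refine squeeze_zero (fun n => norm_nonneg _) (fun n => ?_) h
    exact norm_add_le (a n) (b n)
  smul_mem' := by
    intro c a ha
    have h := ha.const_mul ‖c‖
    simp only [mul_zero] at h
    refine squeeze_zero (fun n => norm_nonneg _) (fun n => ?_) h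
    exact (norm_smul_le c (a n))

variable {X} in
theorem mem_nullU {f : BS X} : f ∈ nullU U X ↔ Tendsto (fun n => ‖f n‖) (U : Filter ℕ) (𝓝 0) :=
  Iff.rfl

instance isClosed_nullU : IsClosed (nullU U X : Set (BS X)) := by
  refine IsSeqClosed.isClosed ?_
  intro u a hu ha
  change Tendsto (fun n => ‖a n‖) (U : Filter ℕ) (𝓝 0)
  rw [Metric.tendsto_nhds]
  intro ε hε
  have h1 := (Metric.tendsto_nhds.1 ha) (ε / 2) (half_pos hε)
  obtain ⟨m, hm⟩ := h1.exists
  have h2 : Tendsto (fun n => ‖u m n‖) (U : Filter ℕ) (𝓝 0) := hu m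
  have h3 := (Metric.tendsto_nhds.1 h2) (ε / 2) (half_pos hε)
  filter_upwards [h3] with n hn
  rw [dist_zero_right, norm_norm] at hn ⊢
  have h4 : ‖a n - u m n‖ ≤ ‖a - u m‖ := lp.norm_apply_le_norm (by simp) (a - u m) n
  have h5 : ‖a - u m‖ < ε / 2 := by
    rw [dist_comm, dist_eq_norm] at hm
    exact hm
  have h6 : ‖a n‖ ≤ ‖a n - u m n‖ + ‖u m n‖ := by
    have := norm_add_le (a n - u m n) (u m n)
    simpa using this
  linarith

/-- The ultrapower of the Banach space `X` along `U`: bounded sequences modulo those that tend to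
zero in norm along `U`, with the quotient norm (which is the limit of the norms along `U`). -/
abbrev UP : Type _ := BS X ⧸ nullU U X

variable {X} in
/-- The class of a bounded sequence in the ultrapower. -/
noncomputable def cls : BS X →L[ℝ] UP U X := (nullU U X).mkQL

variable {X} in
theorem memInfty_app (T : X →L[ℝ] X) (f : BS X) : Memℓp (fun n => T (f n)) ∞ := by
  have h : ∀ n, ‖T (f n)‖ ≤ ‖T‖ * ‖f‖ := fun n =>
    (T.le_opNorm (f n)).trans
      (mul_le_mul_of_nonneg_left (lp.norm_apply_le_norm (by simp) f n) (norm_nonneg T))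
  exact memℓp_infty ⟨‖T‖ * ‖f‖, by rintro _ ⟨n, rfl⟩; exact h n⟩

variable {X} in
/-- The operator `(x_n) ↦ (T x_n)` on bounded sequences. -/
noncomputable def app (T : X →L[ℝ] X) : BS X →L[ℝ] BS X :=
  LinearMap.mkContinuous
    { toFun := fun f => ⟨fun n => T (f n), memInfty_app T f⟩
      map_add' := by
        intro f g
        ext n
        simp
      map_smul' := by
        intro c f
        ext n
        simp } ‖T‖ (by
      intro f
      refine lp.norm_le_of_forall_le (by positivity) (fun n => ?_)
      exact (T.le_opNorm (f n)).trans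
        (mul_le_mul_of_nonneg_left (lp.norm_apply_le_norm (by simp) f n) (norm_nonneg T)))

variable {X} in
@[simp] theorem app_apply (T : X →L[ℝ] X) (f : BS X) (n : ℕ) : app T f n = T (f n) := rfl

variable {X} in
theorem app_null (T : X →L[ℝ] X) {f : BS X} (hf : f ∈ nullU U X) : app T f ∈ nullU U X := by
  rw [mem_nullU] at hf ⊢
  have h := hf.const_mul ‖T‖
  simp only [mul_zero] at h
  exact squeeze_zero (fun n => norm_nonneg _) (fun n => T.le_opNorm (f n)) h

variable {X} in
/-- The ultrapower `T^U` of the bounded operator `T`: the class of `(x_n)` is mapped to the class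
of `(T x_n)`. -/
noncomputable def upow (T : X →L[ℝ] X) : UP U X →L[ℝ] UP U X :=
  (nullU U X).liftQL ((cls U).comp (app T)) (by
    intro f hf
    rw [LinearMap.mem_ker]
    change (nullU U X).mkQ (app T f) = 0
    rw [Submodule.mkQ_apply, Submodule.Quotient.mk_eq_zero]
    exact app_null U T hf)

variable {X} in
theorem upow_cls (T : X →L[ℝ] X) (f : BS X) : upow U T (cls U f) = cls U (app T f) := rfl

end Ultrapower

section Algebras

variable {Y : Type*} [NormedAddCommGroup Y] [NormedSpace ℝ Y]

/-- The closure of a set of bounded operators in the weak operator topology. -/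
def WOTClosure (A : Set (Y →L[ℝ] Y)) : Set (Y →L[ℝ] Y) :=
  {S | ∀ (F : Finset (Y × (Y →L[ℝ] ℝ))) (ε : ℝ), 0 < ε →
    ∃ R ∈ A, ∀ x ∈ F, |x.2 (S x.1) - x.2 (R x.1)| < ε}

/-- A set of operators (an algebra in the application) is reflexive if it contains every bounded
operator which leaves invariant each closed subspace that is invariant under all its elements. -/
def IsReflexive (A : Set (Y →L[ℝ] Y)) : Prop :=
  ∀ S : Y →L[ℝ] Y,
    (∀ N : Submodule ℝ Y, IsClosed (N : Set Y) → (∀ R ∈ A, ∀ x ∈ N, R x ∈ N) →
      ∀ x ∈ N, S x ∈ N) → S ∈ A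

end Algebras

/-- The closure, in the weak operator topology of `B(X^U)`, of the algebra of all ultrapowers
`T^U` of bounded operators `T` on `X`. -/
def ultraAlg (U : Ultrafilter ℕ) (X : Type*) [NormedAddCommGroup X] [NormedSpace ℝ X] :
    Set (UP U X →L[ℝ] UP U X) :=
  WOTClosure {R | ∃ T : X →L[ℝ] X, R = upow U T}

/-- The real Banach space `L^p([0,1])`. -/
abbrev LpI (p : ℝ≥0∞) : Type := Lp ℝ p (volume.restrict (Set.Icc (0 : ℝ) 1))

/-- `p = c`: every family of fewer than continuum many sets of natural numbers, all of whose finite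
subfamilies have infinite intersection, has an infinite pseudo-intersection.  It follows from the
continuum hypothesis and from Martin's axiom. -/
def PEqC : Prop :=
  ∀ F : Set (Set ℕ), #F < 𝔠 → (∀ G : Finset (Set ℕ), (G : Set (Set ℕ)) ⊆ F →
    {n : ℕ | ∀ A ∈ G, n ∈ A}.Infinite) →
    ∃ P : Set ℕ, P.Infinite ∧ ∀ A ∈ F, (P \ A).Finite

end Pool.Agent.Helper49.RU
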