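import Pool.Agent.Helper49.RU.St

/-!
Project RU (MP_a60174_an): the last step.
-/

namespace Pool.Agent.Helper49.RU

open MeasureTheory Filter Topology Complex
open scoped ENNReal Cardinal ComplexConjugate

theorem mainStep (hCHP : StCHP) (hNAT : StNAT) (hRED : StRED) (hEMB : StEMB) (hHLB : StHLB) :
    ((Cardinal.aleph 1 : Cardinal.{0}) = 𝔠 → PEqC) ∧
    (PEqC → ∃ U : Ultrafilter ℕ, (∀ n : ℕ, {n} ∉ U) ∧
      ∀ (p : ℝ≥0∞) [Fact (1 ≤ p)], 1 < p → p < ∞ → ¬ IsReflexive (ultraAlg U (LpI p))) := by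
  refine ⟨hCHP, fun hp => ?_⟩
  obtain ⟨U, hU, z, hz⟩ := hNAT hp
  refine ⟨U, hU, fun p hp1 h1 h2 => ?_⟩
  obtain ⟨i0, q0, h0⟩ := hHLB
  obtain ⟨i1, q1, h3⟩ := hEMB p h1 h2.ne
  exact hRED U z hz (LpI p) (i1.comp i0) (q0.comp q1) (fun h => by simp [h0, h3])

end Pool.Agent.Helper49.RU
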