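import Pool.Agent.Helper49.RU.Cls

/-!
Project RU (MP_a60174_an): the last step, for the class of conjugation-free ultrafilters.
-/

namespace Pool.Agent.Helper49.RU

open MeasureTheory Filter Topology Complex
open scoped ENNReal Cardinal ComplexConjugate

/-- The conjugate-linear rank one operator `v ↦ ⟨v, z⟩ z`. -/
private noncomputable def rk (z : L2C) : L2C →L⋆[ℂ] L2C :=
  LinearMap.mkContinuous
    { toFun := fun v => (inner ℂ v z : ℂ) • z
      map_add' := by
        intro v w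
        rw [inner_add_left, add_smul]
      map_smul' := by
        intro c v
        rw [inner_smul_left, mul_smul] } (‖z‖ * ‖z‖) (by
      intro v
      change ‖(inner ℂ v z : ℂ) • z‖ ≤ _
      rw [norm_smul]
      have h := norm_inner_le_norm (𝕜 := ℂ) v z
      nlinarith [norm_nonneg z, norm_nonneg v, mul_le_mul_of_nonneg_right h (norm_nonneg z)])

theorem nonprincipal_of_conjFree {U : Ultrafilter ℕ} (h : ConjFree U) (n : ℕ) : {n} ∉ U := by
  intro hn
  obtain ⟨z, hz, hM, -⟩ := h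
  have h1 := hM (rk (z n))
  have h2 : Tendsto (fun m => (inner ℂ (z m) (rk (z n) (z m)) : ℂ)) (U : Filter ℕ) (𝓝 1) := by
    refine tendsto_const_nhds.congr' ?_
    have h3 : ∀ᶠ m in (U : Filter ℕ), m ∈ ({n} : Set ℕ) := hn
    filter_upwards [h3] with m hm
    rw [Set.mem_singleton_iff] at hm
    subst hm
    change (1 : ℂ) = inner ℂ (z m) ((inner ℂ (z m) (z m) : ℂ) • z m)
    rw [inner_smul_right, inner_self_eq_norm_sq_to_K, hz m]
    simp
  exact one_ne_zero (tendsto_nhds_unique h2 h1)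

theorem reflexive_of {U : Ultrafilter ℕ} {X : Type} [NormedAddCommGroup X] [NormedSpace ℝ X]
    (h : AlgReflexive U X) : IsReflexive (ultraAlg U X) := by
  have e : ultraAlg U X = WOTcl (upows U X) := by
    unfold ultraAlg WOTClosure WOTcl upows
    have e1 : {R | ∃ T : X →L[ℝ] X, R = upow U T} = Set.range (upow U (X := X)) := by
      ext R
      constructor
      · rintro ⟨T, rfl⟩
        exact ⟨T, rfl⟩
      · rintro ⟨T, rfl⟩
        exact ⟨T, rfl⟩
    rw [e1]
  intro S hS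
  have h2 := h S (fun N hN x hx => hS N hN.1 (by rw [e]; exact hN.2) x hx)
  rw [e]
  exact h2

theorem mainClass (hCHP : StCHP) (hNAT : StNAT) (hRED : StRED) (hEMB : StEMB) (hHLB : StHLB) :
    (∀ U : Ultrafilter ℕ, ConjFree U → (∀ n : ℕ, {n} ∉ U) ∧
      ∀ (p : ℝ≥0∞) [Fact (1 ≤ p)], 1 < p → p < ∞ → ¬ AlgReflexive U (LpI p)) ∧
    (PEqC → ∃ U : Ultrafilter ℕ, ConjFree U) ∧
    ((Cardinal.aleph 1 : Cardinal.{0}) = 𝔠 → PEqC) := by
  refine ⟨fun U hU => ⟨nonprincipal_of_conjFree hU, fun p hp1 h1 h2 => ?_⟩, fun hp => ?_, hCHP⟩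
  · obtain ⟨z, hz⟩ := good_of_conjFree hU
    obtain ⟨i0, q0, h0⟩ := hHLB
    obtain ⟨i1, q1, h3⟩ := hEMB p h1 h2.ne
    intro hR
    refine hRED U z hz (LpI p) (i1.comp i0) (q0.comp q1) (fun h => by simp [h0, h3]) ?_
    exact reflexive_of hR
  · obtain ⟨U, hU, z, hz⟩ := hNAT hp
    exact ⟨U, conjFree_of_good hz⟩

end Pool.Agent.Helper49.RU
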